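import Pool.Agent.Run7.h155.AX.Base

/-!
# Project AX, piece PTB: the perturbation theorem
-/

set_option autoImplicit false

open MeasureTheory Set Filter Topology
open scoped ENNReal ContDiff FourierTransform

namespace Pool.Agent.Run7.h155.AX

open Pool.Agent.Run7.h148.AX

theorem dt_add (ξ : E3) (v w : C3) : dt ξ (v + w) = dt ξ v + dt ξ w := by
  unfold dt
  rw [← Finset.sum_add_distrib]
  refine Finset.sum_congr rfl fun j _ => ?_
  rw [Pi.add_apply]
  ring

theorem dt_neg (ξ : E3) (v : C3) : dt ξ (-v) = -dt ξ v := by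
  unfold dt
  rw [← Finset.sum_neg_distrib]
  refine Finset.sum_congr rfl fun j _ => ?_
  rw [Pi.neg_apply]
  ring

theorem dt_cont (ξ : E3) : Continuous (dt ξ) := by
  unfold dt
  fun_prop

theorem rc_add (θ : ℝ) (v w : C3) : rc θ (v + w) = rc θ v + rc θ w := by
  unfold rc
  funext k
  fin_cases k <;> simp <;> ring

theorem rc_neg (θ : ℝ) (v : C3) : rc θ (-v) = -rc θ v := by
  unfold rc
  funext k
  fin_cases k <;> simp <;> ring

theorem rc_cont (θ : ℝ) : Continuous (rc θ) := by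
  unfold rc
  refine continuous_pi fun k => ?_
  fin_cases k <;> simp <;> fun_prop

theorem sym_add {a b : E3 → C3} (ha : Sym a) (hb : Sym b) : Sym (fun ξ => a ξ + b ξ) := by
  refine ⟨fun ξ k => ?_, fun θ ξ => ?_, fun ξ => ?_⟩
  · change (a (-ξ) + b (-ξ)) k = _
    rw [Pi.add_apply, ha.1, hb.1, ← map_add]
    rfl
  · change a (rt θ ξ) + b (rt θ ξ) = rc θ (a ξ + b ξ)
    rw [ha.2.1, hb.2.1, rc_add]
  · change dt ξ (a ξ + b ξ) = 0
    rw [dt_add, ha.2.2, hb.2.2, add_zero]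

theorem sym_neg {a : E3 → C3} (ha : Sym a) : Sym (fun ξ => -a ξ) := by
  refine ⟨fun ξ k => ?_, fun θ ξ => ?_, fun ξ => ?_⟩
  · change (-a (-ξ)) k = _
    rw [Pi.neg_apply, ha.1, ← map_neg]
    rfl
  · change -a (rt θ ξ) = rc θ (-a ξ)
    rw [ha.2.1, rc_neg]
  · change dt ξ (-a ξ) = 0
    rw [dt_neg, ha.2.2, neg_zero]

theorem sym_lim {a : ℕ → E3 → C3} {b : E3 → C3} (ha : ∀ n, Sym (a n))
    (h : ∀ ξ, Tendsto (fun n => a n ξ) atTop (𝓝 (b ξ))) : Sym b := by
  refine ⟨fun ξ k => ?_, fun θ ξ => ?_, fun ξ => ?_⟩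
  · have h1 := ((continuous_apply k).tendsto (b (-ξ))).comp (h (-ξ))
    have h2 := (((Complex.continuous_conj.comp (continuous_apply k)).tendsto (b ξ)).comp (h ξ))
    refine tendsto_nhds_unique h1 (h2.congr fun n => ?_)
    exact ((ha n).1 ξ k).symm
  · refine tendsto_nhds_unique (h (rt θ ξ)) ((((rc_cont θ).tendsto (b ξ)).comp (h ξ)).congr
      fun n => ?_)
    exact ((ha n).2.1 θ ξ).symm
  · refine tendsto_nhds_unique (((dt_cont ξ).tendsto (b ξ)).comp (h ξ))
      (tendsto_const_nhds.congr fun n => ?_)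
    exact ((ha n).2.2 ξ).symm

theorem t_PTB : S_PER → S_VC2 → S_SY1 → S_SY2 → S_NLB → S_NLM → S_NLL → S_CVM → S_PTB := by
  intro hPER hVC2 _ hSY2 hNLB hNLM hNLL _ κ K η H R g hκ hK hη hHc hH0 hHK hR hg hRs hgs hgH hRη
    hsm heq
  set F : ℝ → E3 → C3 := fun t ξ => -R t ξ with hF
  have hnF : nm F = nm R := by
    funext t ξ
    change ‖-R t ξ‖ₑ = ‖R t ξ‖ₑ
    rw [enorm_neg]
  obtain ⟨hU, hT, hb⟩ := hPER κ K η H (nm R) (nm g) hκ hK hη hHc hH0 hHK hR.2 hg.2 hgH hRη hsm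
  have hFm : Measurable (Function.uncurry F) := hR.1.neg
  obtain ⟨v, hvm, hv⟩ := hVC2 κ F g hκ hFm hg.1 (by rw [hnF]; exact hU)
  rw [hnF] at hv
  have hvT : TameV v := ⟨hvm, tame_mono hvm.enorm (fun t ht ξ => (hv t ht ξ).1) hT⟩
  have hv0 : ∀ ξ, v 0 ξ = 0 := fun ξ => by
    rw [(hv 0 le_rfl ξ).2.2]
    unfold stp
    rw [Ioc_self, Measure.restrict_empty, integral_zero_measure]
  refine ⟨fun t ξ => g t ξ + v t ξ, ⟨hg.1.add hvm, tame_mono (hg.1.add hvm).enorm
    (fun t _ ξ => enorm_add_le _ _) (tame_add hg.2 hvT.2)⟩, fun t h0t ξ => ?_, fun t h0t => ?_,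
    fun ξ => ?_, fun t h0t => ?_⟩
  · -- the equation
    obtain ⟨Mg, hMg⟩ := tameV_bd hg t
    obtain ⟨Mv, hMv⟩ := tameV_bd hvT t
    obtain ⟨MR, hMR⟩ := tameV_bd hR t
    have hga : ∀ s, Measurable (g s) := fun s => Measurable.comp (g := Function.uncurry g)
      (f := fun ξ => (s, ξ)) hg.1 (measurable_const.prodMk measurable_id)
    have hva : ∀ s, Measurable (v s) := fun s => Measurable.comp (g := Function.uncurry v)
      (f := fun ξ => (s, ξ)) hvm (measurable_const.prodMk measurable_id)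
    have hnlm : ∀ a b : ℝ → E3 → C3, Measurable (Function.uncurry a) →
        Measurable (Function.uncurry b) → Measurable fun s => nl (a s) (b s) ξ :=
      fun a b ha hb' => Measurable.comp (g := fun p : ℝ × E3 => nl (a p.1) (b p.1) p.2)
        (f := fun s => (s, ξ)) (hNLM a b ha hb') (measurable_id.prodMk measurable_const)
    have hRξ : Measurable fun s => R s ξ := Measurable.comp (g := Function.uncurry R)
      (f := fun s => (s, ξ)) hR.1 (measurable_id.prodMk measurable_const)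
    obtain ⟨C1, hC1⟩ := nl_bd hNLB hMg hMg ξ
    obtain ⟨C2, hC2⟩ := nl_bd hNLB hMg hMv ξ
    obtain ⟨C3', hC3⟩ := nl_bd hNLB hMv hMg ξ
    obtain ⟨C4, hC4⟩ := nl_bd hNLB hMv hMv ξ
    have i1 : IntegrableOn (fun s => ht κ ξ (t - s) • (nl (g s) (g s) ξ + R s ξ)) (Ioc 0 t) :=
      int_time hκ.le ξ t ((hnlm g g hg.1 hg.1).add hRξ) (M := C1 + MR) fun s hs => by
        refine (enorm_add_le _ _).trans ?_
        push_cast
        exact add_le_add (hC1 s hs) ((hMR s (Ioc_subset_Icc_self hs)).2 ξ)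
    have i2 : IntegrableOn (fun s => ht κ ξ (t - s) •
        (F s ξ + nl (g s) (v s) ξ + nl (v s) (g s) ξ + nl (v s) (v s) ξ)) (Ioc 0 t) :=
      int_time hκ.le ξ t (((hRξ.neg.add (hnlm g v hg.1 hvm)).add (hnlm v g hvm hg.1)).add
        (hnlm v v hvm hvm)) (M := MR + C2 + C3' + C4) fun s hs => by
        push_cast
        refine (enorm_add_le _ _).trans (add_le_add ((enorm_add_le _ _).trans
          (add_le_add ((enorm_add_le _ _).trans (add_le_add ?_ (hC2 s hs))) (hC3 s hs)))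
          (hC4 s hs))
        change ‖-R s ξ‖ₑ ≤ _
        rw [enorm_neg]
        exact (hMR s (Ioc_subset_Icc_self hs)).2 ξ
    have hvt := (hv t h0t ξ).2.2
    unfold stp at hvt
    change g t ξ + v t ξ = ht κ ξ t • (g 0 ξ + v 0 ξ) +
      ∫ s in Ioc 0 t, ht κ ξ (t - s) • nl (fun η => g s η + v s η) (fun η => g s η + v s η) ξ
    rw [hv0, add_zero, heq t h0t ξ, hvt, add_assoc, ← integral_add i1 i2]
    congr 1
    refine setIntegral_congr_fun measurableSet_Ioc fun s hs => ?_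
    have hs' : s ∈ Icc 0 t := Ioc_subset_Icc_self hs
    have fin : ∀ (a b : E3 → C3) (M M' : NNReal), (∀ ξ, ‖a ξ‖ₑ ≤ M) → (∫⁻ ξ, ‖b ξ‖ₑ) ≤ M' →
        cv (fun η => ‖a η‖ₑ) (fun η => ‖b η‖ₑ) ξ < ⊤ := fun a b M M' h h' =>
      (cv_le h h' ξ).trans_lt (by
        rw [← ENNReal.coe_mul]
        exact ENNReal.coe_lt_top)
    have fgg := fin (g s) (g s) Mg Mg (hMg s hs').2 (hMg s hs').1
    have fgv := fin (g s) (v s) Mg Mv (hMg s hs').2 (hMv s hs').1
    have fvg := fin (v s) (g s) Mv Mg (hMv s hs').2 (hMg s hs').1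
    have fvv := fin (v s) (v s) Mv Mv (hMv s hs').2 (hMv s hs').1
    have fsum : cv (fun η => ‖g s η + v s η‖ₑ) (fun η => ‖g s η‖ₑ) ξ < ⊤ := by
      refine fin (fun η => g s η + v s η) (g s) (Mg + Mv) Mg (fun ξ => ?_) (hMg s hs').1
      push_cast
      exact (enorm_add_le _ _).trans (add_le_add ((hMg s hs').2 ξ) ((hMv s hs').2 ξ))
    have fsum' : cv (fun η => ‖g s η + v s η‖ₑ) (fun η => ‖v s η‖ₑ) ξ < ⊤ := by
      refine fin (fun η => g s η + v s η) (v s) (Mg + Mv) Mv (fun ξ => ?_) (hMv s hs').1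
      push_cast
      exact (enorm_add_le _ _).trans (add_le_add ((hMg s hs').2 ξ) ((hMv s hs').2 ξ))
    have hgv : Measurable fun η => g s η + v s η := (hga s).add (hva s)
    have e1 := (hNLL (fun η => g s η + v s η) (g s) (g s) (v s) hgv (hga s) (hga s) (hva s) ξ
      fsum fgg fsum').2.2.1
    have e2 := (hNLL (g s) (v s) (g s) (g s) (hga s) (hva s) (hga s) (hga s) ξ fgg fvg fgg).1
    have e3 := (hNLL (g s) (v s) (v s) (v s) (hga s) (hva s) (hva s) (hva s) ξ fgv fvv fgv).1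
    rw [e1, e2, e3, ← smul_add]
    congr 1
    change nl (g s) (g s) ξ + R s ξ + (-R s ξ + nl (g s) (v s) ξ + nl (v s) (g s) ξ +
      nl (v s) (v s) ξ) = _
    abel
  · exact sym_add (hgs t) (sym_lim (fun n => hSY2 κ F g (fun t => sym_neg (hRs t)) hgs n t)
      fun ξ => (hv t h0t ξ).2.1)
  · change g 0 ξ + v 0 ξ = g 0 ξ
    rw [hv0, add_zero]
  · refine (lintegral_mono fun ξ => mul_le_mul' le_rfl ?_).trans (hb t h0t)
    have : g t ξ + v t ξ - g t ξ = v t ξ := by abel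
    rw [this]
    exact (hv t h0t ξ).1

end Pool.Agent.Run7.h155.AX
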