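import Pool.Agent.Run7.h148.AX.Stm3

/-!
# Project AX: the target (piece TGT)
-/

set_option autoImplicit false

open MeasureTheory Set Filter Topology
open scoped ENNReal ContDiff FourierTransform

namespace Pool.Agent.Run7.h155.AX

open Pool.Agent.Run7.h148.AX

theorem locInt_coord {u : E3 → E3} (hu : LocallyIntegrable u) (j : Fin 3) :
    LocallyIntegrable (fun x => u x j) := by
  intro x
  obtain ⟨s, hs, hi⟩ := hu x
  exact ⟨s, hs, (EuclideanSpace.proj j : E3 →L[ℝ] ℝ).integrable_comp hi⟩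

theorem test_coord {φ : E3 → E3} (hφ : Test φ) (j : Fin 3) :
    Continuous (fun x => φ x j) ∧ HasCompactSupport (fun x => φ x j) := by
  refine ⟨?_, ?_⟩
  · have h := hφ.1.continuous
    exact (EuclideanSpace.proj j : E3 →L[ℝ] ℝ).continuous.comp h
  · exact hφ.2.comp_left (g := fun v : E3 => v j) rfl

theorem pair_int {u φ : E3 → E3} (hu : LocallyIntegrable u) (hφ : Test φ) (j : Fin 3) :
    Integrable fun x => u x j * φ x j := by
  have h := (locInt_coord hu j).integrable_smul_left_of_hasCompactSupport (test_coord hφ j).1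
    (test_coord hφ j).2
  refine h.congr (Eventually.of_forall fun x => ?_)
  simp only [smul_eq_mul]
  ring

theorem pair_lin {m : ℕ} {u : E3 → E3} (hu : LocallyIntegrable u) {φ : Fin m → E3 → E3}
    (hφ : ∀ i, Test (φ i)) (c : Fin m → ℝ) :
    pair u (fun x => ∑ i, c i • φ i x) = ∑ i, c i * pair u (φ i) := by
  unfold pair
  have h1 : ∀ x, (∑ j, u x j * (∑ i, c i • φ i x) j)
      = ∑ i, c i * ∑ j, u x j * φ i x j := by
    intro x
    have h2 : ∀ j : Fin 3, (∑ i, c i • φ i x) j = ∑ i, c i * φ i x j := by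
      intro j
      have := map_sum (EuclideanSpace.proj j : E3 →L[ℝ] ℝ)
        (fun i => c i • φ i x) Finset.univ
      simpa using this
    simp only [h2, Finset.mul_sum]
    rw [Finset.sum_comm]
    refine Finset.sum_congr rfl fun i _ => Finset.sum_congr rfl fun j _ => ?_
    ring
  simp only [h1]
  rw [integral_finsetSum]
  · refine Finset.sum_congr rfl fun i _ => ?_
    rw [integral_const_mul]
  · intro i _
    refine Integrable.const_mul ?_ _
    exact integrable_finsetSum _ fun j _ => pair_int hu (hφ i) j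

theorem test_sum {m : ℕ} {φ : Fin m → E3 → E3} (hφ : ∀ i, Test (φ i)) (c : Fin m → ℝ) :
    Test (fun x => ∑ i, c i • φ i x) := by
  refine ⟨?_, ?_⟩
  · exact ContDiff.sum fun i _ => (hφ i).1.const_smul (c i)
  · classical
    have hK : IsCompact (⋃ i, tsupport (φ i)) := isCompact_iUnion fun i => (hφ i).2
    refine HasCompactSupport.of_support_subset_isCompact hK ?_
    intro x hx
    by_contra hn
    apply hx
    simp only [mem_iUnion, not_exists] at hn
    refine Finset.sum_eq_zero fun i _ => ?_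
    rw [image_eq_zero_of_notMem_tsupport (hn i), smul_zero]

theorem rt_smul (θ r : ℝ) (x : E3) : rt θ (r • x) = r • rt θ x := by
  ext j
  fin_cases j <;> simp [rt] <;> ring

theorem adm_smul {A : E3 → E3} (hA : Adm A) (r : ℝ) : Adm (fun x => r • A x) := by
  refine ⟨hA.1.const_smul r, ?_, fun x => ?_, fun θ x => ?_⟩
  · exact hA.2.1.comp_left (g := fun v : E3 => r • v) (smul_zero r)
  · have := hA.2.2.1 x
    simp [this]
  · simp only
    rw [hA.2.2.2 θ x, rt_smul]

theorem adm_zero : Adm (fun _ => (0 : E3)) := by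
  refine ⟨contDiff_const, ?_, fun x => rfl, fun θ x => ?_⟩
  · exact HasCompactSupport.of_support_subset_isCompact (K := ∅) isCompact_empty
      (by intro x hx; exact absurd rfl hx)
  · have := rt_smul θ 0 0
    simpa using this.symm

theorem qf_smul (A Φ : E3 → E3) (r : ℝ) : qf (fun x => r • A x) Φ = r ^ 2 * qf A Φ := by
  unfold qf
  rw [← integral_const_mul]
  refine integral_congr_ae (Eventually.of_forall fun x => ?_)
  simp only [Finset.mul_sum]
  refine Finset.sum_congr rfl fun j _ => Finset.sum_congr rfl fun k _ => ?_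
  simp
  ring

theorem t_TGT : S_CON → S_MIX → S_AVG → S_LPP → S_PAR → S_GRD → S_RA1 → S_RA2 → S_VVP →
    S_TGT := by
  intro hCON hMIX hAVG hLPP hPAR hGRD hRA1 hRA2 hVVP ν u0 m φ ε hν hu0 hax hwd hφ hε
  have hVi : ∀ A, Adm A → LocallyIntegrable (VV ν A) := fun A hA =>
    (hVVP ν A hν hA).2.2.2.1.continuous.locallyIntegrable
  have hy : (fun i => pair u0 (φ i)) ∈
      closure {s : Fin m → ℝ | ∃ A, Adm A ∧ ∀ i, s i = pair (VV ν A) (φ i)} := by
    apply hCON m
    · exact ⟨fun i => pair (VV ν fun _ => (0 : E3)) (φ i), _, adm_zero, fun i => rfl⟩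
    · rintro s ⟨A, hA, hs⟩ c hc
      refine ⟨fun x => Real.sqrt c • A x, adm_smul hA _, fun i => ?_⟩
      rw [hPAR ν _ _ hν (adm_smul hA _) (hφ i), qf_smul, Real.sq_sqrt hc, Pi.smul_apply,
        smul_eq_mul, hs i, hPAR ν A _ hν hA (hφ i)]
      ring
    · rintro s ⟨A, hA, hs⟩ s' ⟨B, hB, hs'⟩
      obtain ⟨C, hC, hlim⟩ := hMIX A B hA hB
      refine mem_closure_of_tendsto (b := atTop) (f := fun n => fun i => pair (VV ν (C n)) (φ i))
        ?_ (Eventually.of_forall fun n => ⟨C n, hC n, fun i => rfl⟩)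
      rw [tendsto_pi_nhds]
      intro i
      have h1 := (hlim (LP (φ i)) (hLPP (φ i) (hφ i)).1).const_mul (-(1 / (4 * ν)))
      have h2 : -(1 / (4 * ν)) * (qf A (LP (φ i)) + qf B (LP (φ i))) = (s + s') i := by
        rw [Pi.add_apply, hs i, hs' i, hPAR ν A _ hν hA (hφ i), hPAR ν B _ hν hB (hφ i)]
        ring
      rw [h2] at h1
      refine h1.congr fun n => ?_
      rw [hPAR ν (C n) _ hν (hC n) (hφ i)]
    · intro c hc
      obtain ⟨φ', hT, hA', hav⟩ := hAVG _ (test_sum hφ c)
      have hq : ∀ A, Adm A → 0 ≤ qf A (LP φ') := by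
        intro A hA
        have h1 := hc (fun i => pair (VV ν A) (φ i)) ⟨A, hA, fun i => rfl⟩
        rw [← pair_lin (hVi A hA) hφ c, hav _ (hVi A hA) (hVVP ν A hν hA).2.2.2.2.1,
          hPAR ν A φ' hν hA hT] at h1
        have h2 : 0 < 1 / (4 * ν) := by positivity
        by_contra hn
        push Not at hn
        nlinarith
      have hL := hLPP φ' hT
      have h0 := hRA2 (LP φ') hL.1 (hL.2.2.1 hA') hL.2.1 hL.2.2.2
        (hRA1 (LP φ') hL.1 (hL.2.2.1 hA') hq)
      obtain ⟨q, hqc, hqe⟩ := hGRD φ' hT h0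
      have h3 : pair u0 φ' = 0 := by
        unfold pair
        have h4 := hwd q hqc
        rw [← h4]
        refine integral_congr_ae (Eventually.of_forall fun x => ?_)
        simp only [hqe]
      rw [← pair_lin hu0 hφ c, hav u0 hu0 hax, h3]
  obtain ⟨s, ⟨A, hA, hs⟩, hd⟩ := Metric.mem_closure_iff.1 hy ε hε
  refine ⟨A, hA, fun i => ?_⟩
  rw [← hs i, ← Real.dist_eq, dist_comm]
  exact (dist_le_pi_dist (fun i => pair u0 (φ i)) s i).trans hd.le

end Pool.Agent.Run7.h155.AX
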