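import Pool.Agent.Run7.h148.AX.Stm1

/-!
# Project AX: tame curves
-/

set_option autoImplicit false

open MeasureTheory Set Filter Topology
open scoped ENNReal ContDiff FourierTransform

namespace Pool.Agent.Run7.h155.AX

open Pool.Agent.Run7.h148.AX

theorem wk_zero (ξ : E3) : wk 0 ξ = 1 := by
  unfold wk
  rw [pow_zero, ENNReal.ofReal_one]

theorem tame_mono {a b : ℝ → E3 → ℝ≥0∞} (ha : Measurable (Function.uncurry a))
    (h : ∀ t, 0 ≤ t → ∀ ξ, a t ξ ≤ b t ξ) (hb : Tame b) : Tame a := by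
  refine ⟨ha, fun k T => ?_⟩
  obtain ⟨M, hM⟩ := hb.2 k T
  refine ⟨M, fun t ht => ⟨(lintegral_mono fun ξ => ?_).trans (hM t ht).1, fun ξ => ?_⟩⟩
  · exact mul_le_mul' le_rfl (h t ht.1 ξ)
  · exact (mul_le_mul' le_rfl (h t ht.1 ξ)).trans ((hM t ht).2 ξ)

theorem wk_meas (k : ℕ) : Measurable (wk k) := by
  unfold wk
  fun_prop

theorem tame_add {a b : ℝ → E3 → ℝ≥0∞} (ha : Tame a) (hb : Tame b) :
    Tame (fun t ξ => a t ξ + b t ξ) := by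
  refine ⟨ha.1.add hb.1, fun k T => ?_⟩
  obtain ⟨M, hM⟩ := ha.2 k T
  obtain ⟨M', hM'⟩ := hb.2 k T
  refine ⟨M + M', fun t ht => ⟨?_, fun ξ => ?_⟩⟩
  · simp only [mul_add]
    have hm : Measurable (a t) := ha.1.comp measurable_prodMk_left
    have hm' : Measurable fun ξ => wk k ξ * a t ξ := (wk_meas k).mul hm
    rw [lintegral_add_left hm']
    push_cast
    exact add_le_add (hM t ht).1 (hM' t ht).1
  · simp only [mul_add]
    push_cast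
    exact add_le_add ((hM t ht).2 ξ) ((hM' t ht).2 ξ)

/-- Bounds on a finite time interval. -/
def Bd (a : ℝ → E3 → C3) (T : ℝ) (M : NNReal) : Prop :=
  ∀ s ∈ Icc 0 T, (∫⁻ ξ, ‖a s ξ‖ₑ) ≤ M ∧ ∀ ξ, ‖a s ξ‖ₑ ≤ M

theorem tameV_bd {a : ℝ → E3 → C3} (ha : TameV a) (T : ℝ) : ∃ M, Bd a T M := by
  obtain ⟨M, hM⟩ := ha.2.2 0 T
  refine ⟨M, fun s hs => ?_⟩
  have := hM s hs
  simp only [wk_zero, one_mul] at this
  exact this

/-- Finite convolutions. -/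
theorem cv_le {a b : E3 → C3} {M M' : NNReal} (ha : ∀ ξ, ‖a ξ‖ₑ ≤ M)
    (hb : (∫⁻ ξ, ‖b ξ‖ₑ) ≤ M') (ξ : E3) :
    cv (fun η => ‖a η‖ₑ) (fun η => ‖b η‖ₑ) ξ ≤ M * M' := by
  unfold cv
  refine (lintegral_mono fun η => mul_le_mul' (ha (ξ - η)) le_rfl).trans ?_
  rw [lintegral_const_mul' _ _ ENNReal.coe_ne_top]
  exact mul_le_mul' le_rfl hb

theorem ht_le {κ : ℝ} (hκ : 0 ≤ κ) (ξ : E3) {r : ℝ} (hr : 0 ≤ r) : ht κ ξ r ≤ 1 := by
  unfold ht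
  rw [Real.exp_le_one_iff, neg_nonpos]
  positivity

theorem ht_nonneg (κ : ℝ) (ξ : E3) (r : ℝ) : 0 ≤ ht κ ξ r := (Real.exp_pos _).le

theorem ht_meas (κ : ℝ) (ξ : E3) (t : ℝ) : Measurable fun s : ℝ => ht κ ξ (t - s) := by
  unfold ht
  fun_prop

/-- Integrability in time. -/
theorem int_time {κ : ℝ} (hκ : 0 ≤ κ) (ξ : E3) (t : ℝ) {φ : ℝ → C3} (hφ : Measurable φ)
    {M : NNReal} (h : ∀ s ∈ Ioc 0 t, ‖φ s‖ₑ ≤ M) :
    IntegrableOn (fun s => ht κ ξ (t - s) • φ s) (Ioc 0 t) := by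
  refine Measure.integrableOn_of_bounded (M := M) measure_Ioc_lt_top.ne
    ((ht_meas κ ξ t).smul hφ).aestronglyMeasurable ?_
  rw [ae_restrict_iff' measurableSet_Ioc]
  refine Eventually.of_forall fun s hs => ?_
  rw [norm_smul, Real.norm_of_nonneg (ht_nonneg _ _ _)]
  have h1 := ht_le hκ ξ (r := t - s) (by linarith [hs.2])
  have h2 : ‖φ s‖ ≤ M := by
    have := h s hs
    rw [enorm_le_coe] at this
    exact_mod_cast this
  calc ht κ ξ (t - s) * ‖φ s‖ ≤ 1 * ‖φ s‖ := mul_le_mul_of_nonneg_right h1 (norm_nonneg _)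
    _ ≤ M := by rw [one_mul]; exact h2

/-- Bound of the nonlinearity. -/
theorem nl_bd (hNLB : S_NLB) {a b : ℝ → E3 → C3} {T : ℝ} {M M' : NNReal} (ha : Bd a T M)
    (hb : Bd b T M') (ξ : E3) : ∃ C : NNReal, ∀ s ∈ Ioc 0 T, ‖nl (a s) (b s) ξ‖ₑ ≤ C := by
  refine ⟨40 * ‖ξ‖₊ * (M * M'), fun s hs => ?_⟩
  have hs' : s ∈ Icc 0 T := Ioc_subset_Icc_self hs
  refine (hNLB (a s) (b s) ξ).trans ?_
  have h1 := cv_le (ha s hs').2 (hb s hs').1 ξ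
  have h2 : nw ξ = (‖ξ‖₊ : ℝ≥0∞) := by
    unfold nw
    rw [ofReal_norm]
    rfl
  push_cast
  rw [h2]
  exact mul_le_mul' le_rfl h1

end Pool.Agent.Run7.h155.AX
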