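import Pool.Agent.Run7.h155.AX.Base

/-!
# Project AX, piece VC2: convergence of the Picard iterates
-/

set_option autoImplicit false

open MeasureTheory Set Filter Topology
open scoped ENNReal ContDiff FourierTransform

namespace Pool.Agent.Run7.h155.AX

open Pool.Agent.Run7.h148.AX

theorem dt_cont' (ξ : E3) : Continuous (dt ξ) := by
  unfold dt
  fun_prop

theorem lp_cont (ξ : E3) : Continuous (Pool.Agent.Run7.h148.AX.lp ξ) := by
  unfold Pool.Agent.Run7.h148.AX.lp dt
  fun_prop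

theorem dt_norm (ξ : E3) (v : C3) : ‖dt ξ v‖ ≤ (∑ j, ‖(ξ j : ℂ)‖) * ‖v‖ := by
  unfold dt
  refine (norm_sum_le _ _).trans ?_
  rw [Finset.sum_mul]
  refine Finset.sum_le_sum fun j _ => ?_
  rw [norm_mul]
  exact mul_le_mul_of_nonneg_left (norm_le_pi_norm v j) (norm_nonneg _)

/-- Convergence of the nonlinearity. -/
theorem nl_tendsto {a b : ℕ → E3 → C3} {a' b' : E3 → C3} {A B : E3 → ℝ≥0∞} {M M' : NNReal}
    (ha : ∀ n, Measurable (a n)) (hb : ∀ n, Measurable (b n))
    (haa : ∀ η, Tendsto (fun n => a n η) atTop (𝓝 (a' η)))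
    (hbb : ∀ η, Tendsto (fun n => b n η) atTop (𝓝 (b' η)))
    (hA : Measurable A) (hB : Measurable B) (haA : ∀ n η, ‖a n η‖ₑ ≤ A η)
    (hbB : ∀ n η, ‖b n η‖ₑ ≤ B η) (hAM : ∀ η, A η ≤ M) (hBM : ∀ η, B η ≤ M')
    (hBi : (∫⁻ η, B η) ≤ M') (ξ : E3) :
    Tendsto (fun n => nl (a n) (b n) ξ) atTop (𝓝 (nl a' b' ξ)) := by
  set c : ℝ := ∑ j, ‖(ξ j : ℂ)‖ with hc
  have hc0 : 0 ≤ c := Finset.sum_nonneg fun j _ => norm_nonneg _
  have hsub : Measurable fun η : E3 => ξ - η := by fun_prop
  have key : Tendsto (fun n => ∫ η, dt ξ (a n (ξ - η)) • b n η) atTop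
      (𝓝 (∫ η, dt ξ (a' (ξ - η)) • b' η)) := by
    refine tendsto_integral_of_dominated_convergence
      (fun η => c * (A (ξ - η) * B η).toReal) (fun n => ?_) ?_ (fun n => ?_) ?_
    · exact ((((dt_cont' ξ).measurable.comp ((ha n).comp hsub))).smul (hb n)).aestronglyMeasurable
    · refine (integrable_toReal_of_lintegral_ne_top ((hA.comp hsub).mul hB).aemeasurable
        ?_).const_mul c
      refine ne_of_lt (lt_of_le_of_lt (lintegral_mono (g := fun η => (M : ℝ≥0∞) * B η)
        fun η => mul_le_mul' (hAM _) le_rfl) ?_)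
      rw [lintegral_const_mul' _ _ ENNReal.coe_ne_top]
      exact ENNReal.mul_lt_top ENNReal.coe_lt_top (hBi.trans_lt ENNReal.coe_lt_top)
    · refine Eventually.of_forall fun η => ?_
      rw [norm_smul]
      have h1 := dt_norm ξ (a n (ξ - η))
      have hfin : A (ξ - η) * B η ≠ ⊤ := (ENNReal.mul_lt_top ((hAM _).trans_lt ENNReal.coe_lt_top)
        ((hBM _).trans_lt ENNReal.coe_lt_top)).ne
      have h2 : ‖a n (ξ - η)‖ * ‖b n η‖ ≤ (A (ξ - η) * B η).toReal := by
        rw [← toReal_enorm, ← toReal_enorm, ← ENNReal.toReal_mul]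
        exact ENNReal.toReal_mono hfin (mul_le_mul' (haA n _) (hbB n _))
      calc ‖dt ξ (a n (ξ - η))‖ * ‖b n η‖ ≤ (c * ‖a n (ξ - η)‖) * ‖b n η‖ :=
            mul_le_mul_of_nonneg_right h1 (norm_nonneg _)
        _ = c * (‖a n (ξ - η)‖ * ‖b n η‖) := by ring
        _ ≤ _ := mul_le_mul_of_nonneg_left h2 hc0
    · refine Eventually.of_forall fun η => ?_
      exact (((dt_cont' ξ).tendsto _).comp (haa (ξ - η))).smul (hbb η)
  unfold nl
  exact (((lp_cont ξ).tendsto _).comp key).const_smul _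

/-- Bound of the nonlinearity. -/
theorem nl_bd' (hNLB : S_NLB) {a b : E3 → C3} {M M' : NNReal} (ha : ∀ ξ, ‖a ξ‖ₑ ≤ M)
    (hb : (∫⁻ ξ, ‖b ξ‖ₑ) ≤ M') (ξ : E3) : ‖nl a b ξ‖ₑ ≤ (40 * ‖ξ‖₊ * (M * M') : NNReal) := by
  refine (hNLB a b ξ).trans ?_
  have h1 := cv_le ha hb ξ
  have h2 : nw ξ = (‖ξ‖₊ : ℝ≥0∞) := by
    unfold nw
    rw [ofReal_norm]
    rfl
  push_cast
  rw [h2]
  exact mul_le_mul' le_rfl h1

/-- Convergence from bounded increments. -/
theorem exists_lim {x : ℕ → C3} {m : ℕ → ℝ≥0∞} {M : NNReal} (hm : ∀ n, m n ≤ M)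
    (h : ∀ n, ‖x (n + 1) - x n‖ₑ + m n ≤ m (n + 1)) : ∃ l, Tendsto x atTop (𝓝 l) := by
  have hs : ∀ N, (∑ n ∈ Finset.range N, ‖x (n + 1) - x n‖ₑ) ≤ m N := by
    intro N
    induction N with
    | zero => simp
    | succ N ih =>
      rw [Finset.sum_range_succ, add_comm]
      exact (add_le_add le_rfl ih).trans (h N)
  have ht : (∑' n, ‖x (n + 1) - x n‖ₑ) ≤ M :=
    ENNReal.tsum_le_of_sum_range_le fun N => (hs N).trans (hm N)
  have hc : CauchySeq x := by
    refine cauchySeq_of_edist_le_of_tsum_ne_top (fun n => ‖x (n + 1) - x n‖ₑ) (fun n => ?_)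
      (ht.trans_lt ENNReal.coe_lt_top).ne
    rw [edist_comm, edist_eq_enorm_sub]
  exact cauchySeq_tendsto_of_complete hc

theorem t_VC2 : S_CVM → S_ITM → S_NLB → S_NLM → S_VC1 → S_VC2 := by
  intro _ hITM hNLB hNLM hVC1 κ F g hκ hF hg hU
  have hFm : Measurable (Function.uncurry (nm F)) := hF.enorm
  have hgm : Measurable (Function.uncurry (nm g)) := hg.enorm
  have hitm := hITM.2 κ (nm F) (nm g) hFm hgm
  have hV := hVC1 κ F g hκ hF hg hU
  -- the limit
  have hex : ∀ (t : ℝ) (ξ : E3), ∃ l, Tendsto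
      (fun n => if 0 ≤ t then itv κ F g n t ξ else 0) atTop (𝓝 l) := by
    intro t ξ
    by_cases h0 : 0 ≤ t
    · simp only [if_pos h0]
      obtain ⟨M, hM⟩ := hU t
      exact exists_lim (m := fun n => itm κ (nm F) (nm g) n t ξ) (M := M)
        (fun n => (hM t ⟨h0, le_rfl⟩).2.1 n ξ) fun n => ((hV n).2 t h0 ξ).2
    · simp only [if_neg h0]
      exact ⟨0, tendsto_const_nhds⟩
  choose v hv using hex
  have hvm : Measurable (Function.uncurry v) := by
    refine measurable_of_tendsto_metrizable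
      (f := fun n (p : ℝ × E3) => if 0 ≤ p.1 then itv κ F g n p.1 p.2 else 0)
      (fun n => Measurable.ite (measurableSet_le measurable_const measurable_fst) (hV n).1
        measurable_const) ?_
    rw [tendsto_pi_nhds]
    exact fun p => hv p.1 p.2
  have hlim : ∀ t, 0 ≤ t → ∀ ξ, Tendsto (fun n => itv κ F g n t ξ) atTop (𝓝 (v t ξ)) := by
    intro t h0 ξ
    have := hv t ξ
    simp only [if_pos h0] at this
    exact this
  set sm : ℝ → E3 → ℝ≥0∞ := fun t ξ => ⨆ n, itm κ (nm F) (nm g) n t ξ with hsm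
  have hle : ∀ n t, 0 ≤ t → ∀ ξ, ‖itv κ F g n t ξ‖ₑ ≤ sm t ξ := fun n t h0 ξ =>
    ((hV n).2 t h0 ξ).1.trans (le_iSup (fun n => itm κ (nm F) (nm g) n t ξ) n)
  have hsmm : ∀ t, Measurable (sm t) := fun t => by
    refine Measurable.iSup fun n => ?_
    exact Measurable.comp (g := Function.uncurry (itm κ (nm F) (nm g) n))
      (f := fun ξ => (t, ξ)) (hitm n).1 (measurable_const.prodMk measurable_id)
  have sec : ∀ w : ℝ → E3 → C3, Measurable (Function.uncurry w) → ∀ s, Measurable (w s) :=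
    fun w hw s => Measurable.comp (g := Function.uncurry w) (f := fun ξ => (s, ξ)) hw
      (measurable_const.prodMk measurable_id)
  refine ⟨v, hvm, fun t h0 ξ => ⟨?_, hlim t h0 ξ, ?_⟩⟩
  · exact le_of_tendsto ((continuous_enorm.tendsto _).comp (hlim t h0 ξ))
      (Eventually.of_forall fun n => hle n t h0 ξ)
  · -- the equation
    obtain ⟨M, hM⟩ := hU t
    have hsmi : ∀ s ∈ Icc 0 t, (∫⁻ η, sm s η) ≤ M := by
      intro s hs
      have hms : ∀ n, Measurable (itm κ (nm F) (nm g) n s) := fun n =>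
        Measurable.comp (g := Function.uncurry (itm κ (nm F) (nm g) n))
          (f := fun ξ => (s, ξ)) (hitm n).1 (measurable_const.prodMk measurable_id)
      rw [hsm]
      simp only
      rw [lintegral_iSup hms (monotone_nat_of_le_succ fun n η => (hitm n).2 s η)]
      exact iSup_le fun n => (hM s hs).1 n
    have hsmM : ∀ s ∈ Icc 0 t, ∀ η, sm s η ≤ M := fun s hs η =>
      iSup_le fun n => (hM s hs).2.1 n η
    have hgM : ∀ s ∈ Icc 0 t, ∀ η, ‖g s η‖ₑ ≤ M := fun s hs η => (hM s hs).2.2.2.1 η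
    have hgi : ∀ s ∈ Icc 0 t, (∫⁻ η, ‖g s η‖ₑ) ≤ M := fun s hs => (hM s hs).2.2.1
    have hFM : ∀ s ∈ Icc 0 t, ‖F s ξ‖ₑ ≤ M := fun s hs => (hM s hs).2.2.2.2 ξ
    have hstep : Tendsto (fun n => stp κ F g (itv κ F g n) t ξ) atTop
        (𝓝 (stp κ F g v t ξ)) := by
      unfold stp
      set C : NNReal := 40 * ‖ξ‖₊ * (M * M) with hC
      refine tendsto_integral_of_dominated_convergence
        (fun _ => ((M + C + C + C : NNReal) : ℝ)) (fun n => ?_) (integrable_const _)
        (fun n => ?_) ?_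
      · have hn := (hV n).1
        have sl : ∀ a b : ℝ → E3 → C3, Measurable (Function.uncurry a) →
            Measurable (Function.uncurry b) → Measurable fun s => nl (a s) (b s) ξ :=
          fun a b ha hb' => Measurable.comp (g := fun p : ℝ × E3 => nl (a p.1) (b p.1) p.2)
            (f := fun s => (s, ξ)) (hNLM a b ha hb') (measurable_id.prodMk measurable_const)
        have hFξ : Measurable fun s => F s ξ := Measurable.comp (g := Function.uncurry F)
          (f := fun s => (s, ξ)) hF (measurable_id.prodMk measurable_const)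
        exact ((ht_meas κ ξ t).smul (((hFξ.add (sl _ _ hg hn)).add (sl _ _ hn hg)).add
          (sl _ _ hn hn))).aestronglyMeasurable
      · rw [ae_restrict_iff' measurableSet_Ioc]
        refine Eventually.of_forall fun s hs => ?_
        have hs' : s ∈ Icc 0 t := Ioc_subset_Icc_self hs
        rw [norm_smul, Real.norm_of_nonneg (ht_nonneg _ _ _)]
        have h1 := ht_le hκ.le ξ (r := t - s) (by linarith [hs.2])
        have hvM : ∀ η, ‖itv κ F g n s η‖ₑ ≤ M := fun η => (hle n s hs'.1 η).trans (hsmM s hs' η)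
        have hvi : (∫⁻ η, ‖itv κ F g n s η‖ₑ) ≤ M :=
          (lintegral_mono fun η => hle n s hs'.1 η).trans (hsmi s hs')
        have h2 : ‖F s ξ + nl (g s) (itv κ F g n s) ξ + nl (itv κ F g n s) (g s) ξ +
            nl (itv κ F g n s) (itv κ F g n s) ξ‖ₑ ≤ ((M + C + C + C : NNReal) : ℝ≥0∞) := by
          push_cast
          exact (enorm_add_le _ _).trans (add_le_add ((enorm_add_le _ _).trans
            (add_le_add ((enorm_add_le _ _).trans (add_le_add (hFM s hs')
            (nl_bd' hNLB (hgM s hs') hvi ξ))) (nl_bd' hNLB hvM (hgi s hs') ξ)))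
            (nl_bd' hNLB hvM hvi ξ))
        have h3 : ‖F s ξ + nl (g s) (itv κ F g n s) ξ + nl (itv κ F g n s) (g s) ξ +
            nl (itv κ F g n s) (itv κ F g n s) ξ‖ ≤ ((M + C + C + C : NNReal) : ℝ) := by
          rw [enorm_le_coe] at h2
          exact_mod_cast h2
        exact (mul_le_mul_of_nonneg_right h1 (norm_nonneg _)).trans (by rw [one_mul]; exact h3)
      · rw [ae_restrict_iff' measurableSet_Ioc]
        refine Eventually.of_forall fun s hs => ?_
        have hs' : s ∈ Icc 0 t := Ioc_subset_Icc_self hs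
        have hgs := sec g hg s
        have hns : ∀ n, Measurable (itv κ F g n s) := fun n => sec _ (hV n).1 s
        refine Tendsto.const_smul ?_ _
        refine ((tendsto_const_nhds.add ?_).add ?_).add ?_
        · exact nl_tendsto (a := fun _ => g s) (fun _ => hgs) hns
            (fun η => tendsto_const_nhds) (hlim s hs'.1) hgs.enorm (hsmm s)
            (fun _ _ => le_rfl) (fun n η => hle n s hs'.1 η) (hgM s hs') (hsmM s hs')
            (hsmi s hs') ξ
        · exact nl_tendsto (b := fun _ => g s) hns (fun _ => hgs) (hlim s hs'.1)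
            (fun η => tendsto_const_nhds) (hsmm s) hgs.enorm (fun n η => hle n s hs'.1 η)
            (fun _ _ => le_rfl) (hsmM s hs') (hgM s hs') (hgi s hs') ξ
        · exact nl_tendsto hns hns (hlim s hs'.1) (hlim s hs'.1) (hsmm s) (hsmm s)
            (fun n η => hle n s hs'.1 η) (fun n η => hle n s hs'.1 η) (hsmM s hs')
            (hsmM s hs') (hsmi s hs') ξ
    exact tendsto_nhds_unique ((tendsto_add_atTop_iff_nat 1).2 (hlim t h0 ξ)) hstep

end Pool.Agent.Run7.h155.AX
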